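import Mathlib

/-! MP_15d50e_gt: coefficients of absolutely convergent Fourier series. -/

set_option autoImplicit false

open Complex Set
open scoped ComplexConjugate Real

namespace FB

theorem integral_exp_int (m : ℤ) :
    ∫ θ in (0 : ℝ)..2 * π, cexp (m * θ * I) = if m = 0 then ((2 * π : ℝ) : ℂ) else 0 := by
  by_cases hm : m = 0
  · subst hm
    simp
  · rw [if_neg hm]
    have hc : (m : ℂ) * I ≠ 0 := mul_ne_zero (Int.cast_ne_zero.2 hm) I_ne_zero
    have h1 : ∀ θ : ℝ, cexp (m * θ * I) = cexp ((m : ℂ) * I * θ) := by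
      intro θ
      congr 1
      ring
    simp only [h1]
    rw [integral_exp_mul_complex hc]
    have h2 : cexp ((m : ℂ) * I * ((2 * π : ℝ) : ℂ)) = 1 := by
      rw [Complex.exp_eq_one_iff]
      exact ⟨m, by push_cast; ring⟩
    rw [h2]
    simp

variable {ι : Type*} [Countable ι] {c : ι → ℂ} {e : ι → ℤ}

/-- the Fourier coefficients of `∑ c_i exp(i e_i θ)` -/
theorem coeff_integral (hc : Summable fun i => ‖c i‖) (he : Function.Injective e) (k : ι) :
    ∫ θ in (0 : ℝ)..2 * π, (∑' i, c i * cexp (e i * θ * I)) * cexp (-(e k * θ * I)) =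
      2 * π * c k := by
  classical
  have hn : ∀ (m : ℤ) (θ : ℝ), ‖cexp (m * θ * I)‖ = 1 := by
    intro m θ
    have : (m : ℂ) * θ * I = ((m * θ : ℝ) : ℂ) * I := by push_cast; ring
    rw [this, norm_exp_ofReal_mul_I]
  have hterm : ∀ (i : ι) (θ : ℝ), c i * cexp (e i * θ * I) * cexp (-(e k * θ * I)) =
      c i * cexp (((e i - e k : ℤ) : ℂ) * θ * I) := by
    intro i θ
    rw [mul_assoc, ← Complex.exp_add]
    congr 2
    push_cast
    ring
  have hs : ∀ θ : ℝ, Summable fun i => c i * cexp (e i * θ * I) := by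
    intro θ
    refine Summable.of_norm_bounded (g := fun i => ‖c i‖) hc fun i => ?_
    rw [norm_mul, hn, mul_one]
  have h := intervalIntegral.hasSum_integral_of_dominated_convergence (a := 0) (b := 2 * π)
    (μ := MeasureTheory.volume) (F := fun i (θ : ℝ) => c i * cexp (((e i - e k : ℤ) : ℂ) * θ * I))
    (f := fun θ : ℝ => (∑' i, c i * cexp (e i * θ * I)) * cexp (-(e k * θ * I)))
    (fun i _ => ‖c i‖) ?_ ?_ ?_ ?_ ?_
  · have h1 : ∀ i, ∫ θ in (0 : ℝ)..2 * π, c i * cexp (((e i - e k : ℤ) : ℂ) * θ * I) =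
        if i = k then 2 * π * c k else 0 := by
      intro i
      rw [intervalIntegral.integral_const_mul, integral_exp_int]
      by_cases hi : i = k
      · subst hi
        rw [if_pos (sub_self _), if_pos rfl]
        push_cast
        ring
      · rw [if_neg hi, if_neg (fun hcon => hi (he (sub_eq_zero.1 hcon))), mul_zero]
    simp only [h1] at h
    exact (h.unique (hasSum_ite_eq k _))
  · intro i
    exact (by fun_prop : Continuous fun θ : ℝ =>
      c i * cexp (((e i - e k : ℤ) : ℂ) * θ * I)).aestronglyMeasurable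
  · intro i
    refine Filter.Eventually.of_forall fun θ _ => ?_
    rw [norm_mul, hn, mul_one]
  · exact Filter.Eventually.of_forall fun θ _ => hc
  · exact intervalIntegrable_const
  · refine Filter.Eventually.of_forall fun θ _ => ?_
    have h1 := (hs θ).hasSum.mul_right (cexp (-(e k * θ * I)))
    simp only [hterm] at h1
    exact h1

/-- coefficient estimate -/
theorem coeff_norm_le (hc : Summable fun i => ‖c i‖) (he : Function.Injective e) {M : ℝ}
    (hM : ∀ θ : ℝ, ‖∑' i, c i * cexp (e i * θ * I)‖ ≤ M) (k : ι) : ‖c k‖ ≤ M := by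
  have h := coeff_integral hc he k
  have hn : ∀ (m : ℤ) (θ : ℝ), ‖cexp (-(m * θ * I))‖ = 1 := by
    intro m θ
    have : -((m : ℂ) * θ * I) = ((-(m * θ) : ℝ) : ℂ) * I := by push_cast; ring
    rw [this, norm_exp_ofReal_mul_I]
  have h1 : ‖∫ θ in (0 : ℝ)..2 * π, (∑' i, c i * cexp (e i * θ * I)) * cexp (-(e k * θ * I))‖ ≤
      M * |2 * π - 0| := by
    refine intervalIntegral.norm_integral_le_of_norm_le_const fun θ _ => ?_
    rw [norm_mul, hn, mul_one]
    exact hM θ
  rw [h, norm_mul, sub_zero] at h1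
  have h2 : ‖(2 * π : ℂ)‖ = 2 * π := by
    rw [show (2 * π : ℂ) = ((2 * π : ℝ) : ℂ) by push_cast; rfl, norm_real,
      Real.norm_of_nonneg (by positivity)]
  rw [h2, abs_of_pos (by positivity)] at h1
  have h3 := Real.pi_pos
  nlinarith

/-- uniqueness of Fourier coefficients -/
theorem coeff_unique {c' : ι → ℂ} (hc : Summable fun i => ‖c i‖) (hc' : Summable fun i => ‖c' i‖)
    (he : Function.Injective e)
    (h : ∀ θ : ℝ, ∑' i, c i * cexp (e i * θ * I) = ∑' i, c' i * cexp (e i * θ * I)) (k : ι) :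
    c k = c' k := by
  have h1 := coeff_integral hc he k
  have h2 := coeff_integral hc' he k
  simp only [h] at h1
  rw [h1] at h2
  have h3 : (2 * π : ℂ) ≠ 0 := by
    norm_cast
    positivity
  exact mul_left_cancel₀ h3 h2

end FB
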