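import Pool.Agent.FB.HopfP.Liou
import Pool.Agent.FB.HopfP.Four

/-! MP_15d50e_gt, module HOPF: the Hopf differential vanishes (final estimate). -/

set_option autoImplicit false

open Complex Set
open scoped ComplexConjugate Real

namespace FB

/-- singular coefficients -/
noncomputable def cN (h : ℤ → ℂ) (t : ℝ) (m : ℕ) : ℂ := h (-((m + 4 : ℕ) : ℤ)) * (t : ℂ) ^ (m + 4)

/-- regular coefficients -/
noncomputable def dP (h : ℤ → ℂ) (t : ℝ) (m : ℕ) : ℂ := h ((m + 4 : ℕ) : ℤ) * ((t : ℂ) ^ (m + 4))⁻¹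

/-- singular part -/
noncomputable def gS (h : ℤ → ℂ) (t : ℝ) (w : ℂ) : ℂ := ∑' m, cN h t m * (w ^ (m + 6))⁻¹

/-- regular part -/
noncomputable def qP (h : ℤ → ℂ) (t : ℝ) (z : ℂ) : ℂ := ∑' m, dP h t m * z ^ (m + 2)

variable {t : ℝ} {q : ℂ → ℂ} {h : ℤ → ℂ}

/-- the Laurent expansion -/
def HExp (t : ℝ) (q : ℂ → ℂ) (h : ℤ → ℂ) : Prop :=
  ∀ z : ℂ, t / 2 < ‖z‖ → ‖z‖ < 7 / 8 → HasSum (fun n : ℤ => h n * (z / t) ^ n) (z ^ 2 * q z)

theorem HExp.summ (hexp : HExp t q h) (t0 : 0 < t) {r : ℝ} (h1 : t / 2 < r) (h2 : r < 7 / 8) :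
    Summable fun n : ℤ => ‖h n‖ * (r / t) ^ n := by
  have hr : 0 < r := by linarith
  have h3 : ‖(r : ℂ)‖ = r := by rw [norm_real, Real.norm_of_nonneg hr.le]
  have h4 := (hexp (r : ℂ) (by rwa [h3]) (by rwa [h3])).summable.norm
  refine h4.congr fun n => ?_
  rw [norm_mul, norm_zpow, norm_div, h3, norm_real, Real.norm_of_nonneg t0.le]

theorem HExp.summN (hexp : HExp t q h) (t0 : 0 < t) {r : ℝ} (h1 : t / 2 < r) (h2 : r < 7 / 8) :
    Summable fun m : ℕ => ‖cN h t m‖ * (r ^ (m + 4))⁻¹ := by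
  have hr : 0 < r := by linarith
  have hinj : Function.Injective fun m : ℕ => -((m + 4 : ℕ) : ℤ) := by
    intro a b hab
    simpa using hab
  refine ((hexp.summ t0 h1 h2).comp_injective hinj).congr fun m => ?_
  simp only [Function.comp, cN]
  rw [norm_mul, norm_pow, norm_real, Real.norm_of_nonneg t0.le, zpow_neg, zpow_natCast, div_pow,
    inv_div]
  ring

theorem HExp.summP (hexp : HExp t q h) (t0 : 0 < t) {r : ℝ} (h1 : t / 2 < r) (h2 : r < 7 / 8) :
    Summable fun m : ℕ => ‖dP h t m‖ * r ^ (m + 4) := by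
  have hr : 0 < r := by linarith
  have hinj : Function.Injective fun m : ℕ => ((m + 4 : ℕ) : ℤ) := by
    intro a b hab
    simpa using hab
  refine ((hexp.summ t0 h1 h2).comp_injective hinj).congr fun m => ?_
  simp only [Function.comp, dP]
  rw [norm_mul, norm_inv, norm_pow, norm_real, Real.norm_of_nonneg t0.le, zpow_natCast, div_pow]
  ring

theorem HExp.summN2 (hexp : HExp t q h) (t0 : 0 < t) {r : ℝ} (h1 : t / 2 < r) (h2 : r < 7 / 8) :
    Summable fun m : ℕ => ‖cN h t m‖ * (r ^ (m + 2))⁻¹ := by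
  have hr : 0 < r := by linarith
  refine ((hexp.summN t0 h1 h2).mul_right (r ^ 2)).congr fun m => ?_
  field_simp
  ring

theorem HExp.gS_term (_hexp : HExp t q h) {r : ℝ} (hr : 0 < r) {w : ℂ} (hw : r ≤ ‖w‖) (m : ℕ) :
    ‖cN h t m * (w ^ (m + 6))⁻¹‖ ≤ ‖cN h t m‖ * (r ^ (m + 2))⁻¹ * (‖w‖ ^ 4)⁻¹ := by
  have hw0 : 0 < ‖w‖ := hr.trans_le hw
  rw [norm_mul, norm_inv, norm_pow, mul_assoc, show m + 6 = (m + 2) + 4 from rfl, pow_add, mul_inv]
  gcongr

theorem HExp.gS_norm_le (hexp : HExp t q h) (t0 : 0 < t) {r : ℝ} (h1 : t / 2 < r)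
    (h2 : r < 7 / 8) {w : ℂ} (hw : r ≤ ‖w‖) :
    ‖gS h t w‖ ≤ (∑' m, ‖cN h t m‖ * (r ^ (m + 2))⁻¹) * (‖w‖ ^ 4)⁻¹ := by
  have hr : 0 < r := by linarith
  have h3 := (hexp.summN2 t0 h1 h2).mul_right ((‖w‖ ^ 4)⁻¹)
  refine (tsum_of_norm_bounded h3.hasSum fun m => hexp.gS_term hr hw m).trans ?_
  rw [tsum_mul_right]

theorem HExp.isSing (hexp : HExp t q h) (t0 : 0 < t) (t8 : t < 1 / 8)
    (h4 : ∀ n : ℤ, ¬ (4 : ℤ) ∣ n → h n = 0) : IsSing (t / 2) (gS h t) where
  diff := by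
    intro w₀ hw₀
    have hw₀' : t / 2 < ‖w₀‖ := hw₀
    set r := min ((t / 2 + ‖w₀‖) / 2) (1 / 4) with hr
    have hr1 : t / 2 < r := lt_min (by linarith) (by linarith)
    have hr2 : r < ‖w₀‖ := (min_le_left _ _).trans_lt (by linarith)
    have hr3 : r < 7 / 8 := (min_le_right _ _).trans_lt (by norm_num)
    have hr0 : 0 < r := by linarith
    have hU : IsOpen {w : ℂ | r < ‖w‖} := isOpen_lt continuous_const continuous_norm
    have hd : DifferentiableOn ℂ (fun w => ∑' m, cN h t m * (w ^ (m + 6))⁻¹) {w : ℂ | r < ‖w‖} := by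
      refine differentiableOn_tsum_of_summable_norm
        (u := fun m => ‖cN h t m‖ * (r ^ (m + 2))⁻¹ * (r ^ 4)⁻¹)
        ((hexp.summN2 t0 hr1 hr3).mul_right _) (fun m => ?_) hU fun m w hw => ?_
      · intro w hw
        have hw0 : w ≠ 0 := by
          rw [← norm_pos_iff]
          exact hr0.trans hw
        have h6 : w ^ (m + 6) ≠ 0 := pow_ne_zero _ hw0
        have h7 : DifferentiableAt ℂ (fun w : ℂ => (w ^ (m + 6))⁻¹) w :=
          (differentiableAt_pow (m + 6)).fun_inv h6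
        exact (h7.const_mul (cN h t m)).differentiableWithinAt
      · have hw' : r < ‖w‖ := hw
        refine (hexp.gS_term hr0 hw'.le m).trans ?_
        gcongr
    exact (hd.differentiableAt (hU.mem_nhds hr2)).differentiableWithinAt
  bound := by
    intro r hr
    have hr1 : t / 2 < min r (1 / 4) := lt_min hr (by linarith)
    have hr3 : min r (1 / 4) < 7 / 8 := (min_le_right _ _).trans_lt (by norm_num)
    refine ⟨∑' m, ‖cN h t m‖ * ((min r (1 / 4)) ^ (m + 2))⁻¹, ?_, fun w hw =>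
      hexp.gS_norm_le t0 hr1 hr3 ((min_le_left _ _).trans hw)⟩
    have : 0 < min r (1 / 4) := by linarith
    exact tsum_nonneg fun m => by positivity
  rot := by
    intro w _
    unfold gS
    rw [← tsum_neg]
    refine tsum_congr fun m => ?_
    by_cases hm : (4 : ℤ) ∣ -((m + 4 : ℕ) : ℤ)
    · have hm' : 4 ∣ m + 4 := by
        rw [Int.dvd_neg] at hm
        exact_mod_cast hm
      obtain ⟨k, hk⟩ := hm'
      have hI : I ^ (m + 6) = -1 := by
        rw [show m + 6 = (m + 4) + 2 from rfl, pow_add, hk, pow_mul, I_pow_four, one_pow, I_sq,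
          one_mul]
      rw [mul_pow, hI, neg_one_mul, inv_neg, mul_neg]
    · have : cN h t m = 0 := by rw [cN, h4 _ hm, zero_mul]
      rw [this, zero_mul, zero_mul, neg_zero]

theorem HExp.qP_diff (hexp : HExp t q h) (t0 : 0 < t) (t8 : t < 1 / 8) :
    DifferentiableOn ℂ (qP h t) (Metric.ball 0 (7 / 8)) := by
  intro z₀ hz₀
  rw [Metric.mem_ball, dist_zero_right] at hz₀
  set r := (max ‖z₀‖ (t / 2) + 7 / 8) / 2 with hr
  have hm : max ‖z₀‖ (t / 2) < 7 / 8 := max_lt hz₀ (by linarith)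
  have hm1 := le_max_left ‖z₀‖ (t / 2)
  have hm2 := le_max_right ‖z₀‖ (t / 2)
  have hr1 : t / 2 < r := by rw [hr]; linarith
  have hr2 : ‖z₀‖ < r := by rw [hr]; linarith
  have hr3 : r < 7 / 8 := by rw [hr]; linarith
  have hr0 : 0 < r := by linarith
  have hd : DifferentiableOn ℂ (fun z => ∑' m, dP h t m * z ^ (m + 2)) (Metric.ball 0 r) := by
    refine differentiableOn_tsum_of_summable_norm
      (u := fun m => ‖dP h t m‖ * r ^ (m + 4) * (r ^ 2)⁻¹)
      ((hexp.summP t0 hr1 hr3).mul_right _) (fun m => by fun_prop) Metric.isOpen_ball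
      fun m z hz => ?_
    rw [Metric.mem_ball, dist_zero_right] at hz
    rw [norm_mul, norm_pow, show m + 4 = (m + 2) + 2 from rfl, pow_add r (m + 2) 2, ← mul_assoc,
      mul_inv_cancel_right₀ (by positivity)]
    gcongr
  exact (hd.differentiableAt (Metric.isOpen_ball.mem_nhds (by
    rw [Metric.mem_ball, dist_zero_right]; exact hr2))).differentiableWithinAt

theorem HExp.split (hexp : HExp t q h) (t0 : 0 < t) (h4 : ∀ n : ℤ, ¬ (4 : ℤ) ∣ n → h n = 0)
    (h0 : h 0 = 0) {z : ℂ} (hz1 : t / 2 < ‖z‖) (hz2 : ‖z‖ < 7 / 8) :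
    q z = gS h t z + qP h t z := by
  have hz0 : z ≠ 0 := by
    rw [← norm_pos_iff]
    linarith
  have ht0 : (t : ℂ) ≠ 0 := by exact_mod_cast t0.ne'
  set F : ℤ → ℂ := fun n => h n * (z / t) ^ n with hF
  have hS : HasSum F (z ^ 2 * q z) := hexp z hz1 hz2
  have hs := hS.summable
  have hs1 : Summable fun m : ℕ => F (m : ℤ) :=
    hs.comp_injective (i := fun m : ℕ => (m : ℤ)) Nat.cast_injective
  have hs2 : Summable fun m : ℕ => F (-((m : ℤ) + 1)) :=
    hs.comp_injective (i := fun m : ℕ => -((m : ℤ) + 1)) fun a b hab => by simpa using hab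
  have hF0 : ∀ n : ℤ, h n = 0 → F n = 0 := fun n hn => by rw [hF]; simp only [hn, zero_mul]
  have e1 : z ^ 2 * q z = ∑' m : ℕ, F (m : ℤ) + ∑' m : ℕ, F (-((m : ℤ) + 1)) := by
    rw [← hS.tsum_eq, tsum_of_nat_of_neg_add_one hs1 hs2]
  have e2 : ∑' m : ℕ, F (m : ℤ) = z ^ 2 * qP h t z := by
    rw [← hs1.sum_add_tsum_nat_add 4]
    have h5 : ∑ i ∈ Finset.range 4, F (i : ℤ) = 0 := by
      refine Finset.sum_eq_zero fun i hi => hF0 _ ?_
      rw [Finset.mem_range] at hi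
      interval_cases i
      · exact h0
      · exact h4 _ (by decide)
      · exact h4 _ (by decide)
      · exact h4 _ (by decide)
    rw [h5, zero_add, qP, ← tsum_mul_left]
    refine tsum_congr fun m => ?_
    simp only [hF, dP]
    rw [zpow_natCast, div_pow]
    field_simp
    ring
  have e3 : ∑' m : ℕ, F (-((m : ℤ) + 1)) = z ^ 2 * gS h t z := by
    rw [← hs2.sum_add_tsum_nat_add 3]
    have h5 : ∑ i ∈ Finset.range 3, F (-((i : ℤ) + 1)) = 0 := by
      refine Finset.sum_eq_zero fun i hi => hF0 _ ?_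
      rw [Finset.mem_range] at hi
      interval_cases i
      · exact h4 _ (by decide)
      · exact h4 _ (by decide)
      · exact h4 _ (by decide)
    rw [h5, zero_add, gS, ← tsum_mul_left]
    refine tsum_congr fun m => ?_
    have h6 : (-(((m + 3 : ℕ) : ℤ) + 1)) = -((m + 4 : ℕ) : ℤ) := by push_cast; ring
    rw [h6]
    simp only [hF, cN]
    rw [zpow_neg, zpow_natCast, div_pow]
    field_simp
    ring
  have e4 : z ^ 2 * q z = z ^ 2 * (gS h t z + qP h t z) := by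
    rw [e1, e2, e3]
    ring
  exact mul_left_cancel₀ (pow_ne_zero 2 hz0) e4

/-- **Vanishing of the Hopf differential.** -/
theorem hopf_zero (t0 : 0 < t) (t8 : t < 1 / 8)
    (hper : ∀ z ∈ US (t / 2), ∀ p : ℤ × ℤ, q (z + lp p) = q z)
    (hrot : ∀ z ∈ US (t / 2), q (I * z) = -q z)
    (hexp : ∀ z : ℂ, t / 2 < ‖z‖ → ‖z‖ < 7 / 8 →
      HasSum (fun n : ℤ => h n * (z / t) ^ n) (z ^ 2 * q z))
    (h4 : ∀ n : ℤ, ¬ (4 : ℤ) ∣ n → h n = 0) (h0 : h 0 = 0)
    (hsym : ∀ n : ℤ, ‖h (-n)‖ = ‖h n‖) : ∀ z ∈ US (t / 2), q z = 0 := by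
  have hexp' : HExp t q h := hexp
  have hsing := hexp'.isSing t0 t8 h4
  obtain ⟨hQ, hP⟩ := liou_aux (by linarith) (by linarith) hper hrot hsing
    (hexp'.qP_diff t0 t8) fun z h1 h2 => hexp'.split t0 h4 h0 h1 h2
  -- the sum of the coefficients
  set a : ℕ → ℝ := fun m => ‖h ((m + 4 : ℕ) : ℤ)‖ * (2 * t) ^ (m + 4) with ha
  have hcN : ∀ m, ‖cN h t m‖ * ((1 / 2 : ℝ) ^ (m + 2))⁻¹ = 1 / 4 * a m := by
    intro m
    simp only [cN, ha]
    rw [norm_mul, hsym, norm_pow, norm_real, Real.norm_of_nonneg t0.le, mul_pow, one_div, inv_pow,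
      inv_inv]
    ring
  have ha0 : ∀ m, 0 ≤ a m := fun m => by simp only [ha]; positivity
  have has : Summable a := by
    have h5 := hexp'.summN2 t0 (r := 1 / 2) (by linarith) (by norm_num)
    simp only [hcN] at h5
    exact (h5.mul_left 4).congr fun m => by ring
  set H := ∑' m, a m with hH
  have hH0 : 0 ≤ H := tsum_nonneg ha0
  have hB : ∑' m, ‖cN h t m‖ * ((1 / 2 : ℝ) ^ (m + 2))⁻¹ = 1 / 4 * H := by
    simp only [hcN]
    rw [tsum_mul_left]
  have hg : ∀ w : ℂ, 1 / 2 ≤ ‖w‖ → ‖gS h t w‖ ≤ 1 / 4 * H * (‖w‖ ^ 4)⁻¹ := by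
    intro w hw
    have h5 := hexp'.gS_norm_le t0 (r := 1 / 2) (by linarith) (by norm_num) hw
    rwa [hB] at h5
  have hPb : ∀ z : ℂ, ‖z‖ = 1 / 2 → ‖qP h t z‖ ≤ 1600 * H := by
    intro z hz
    rw [hP z (by rw [hz]; norm_num)]
    refine (hsing.PQ_norm_le (r := 1 / 2) (R := 1 / 2) (by norm_num) (by positivity) hg hz.le
      (by rw [hz]; norm_num)).trans (le_of_eq ?_)
    norm_num
    ring
  -- Cauchy estimate
  have hd : ∀ m, ‖dP h t m‖ * (1 / 2) ^ (m + 2) ≤ 1600 * H := by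
    intro m
    have hsum : Summable fun m => ‖dP h t m * (1 / 2 : ℂ) ^ (m + 2)‖ := by
      have h5 := (hexp'.summP t0 (r := 1 / 2) (by linarith) (by norm_num)).mul_right 4
      refine h5.congr fun m => ?_
      rw [norm_mul, norm_pow, show ‖(1 / 2 : ℂ)‖ = 1 / 2 by norm_num]
      rw [show m + 4 = (m + 2) + 2 from rfl, pow_add _ (m + 2) 2]
      ring
    have he : Function.Injective fun m : ℕ => ((m + 2 : ℕ) : ℤ) := by
      intro x y hxy
      simpa using hxy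
    have h5 := coeff_norm_le (c := fun m => dP h t m * (1 / 2 : ℂ) ^ (m + 2))
      (e := fun m : ℕ => ((m + 2 : ℕ) : ℤ)) hsum he (M := 1600 * H) (fun θ => ?_) m
    · rw [norm_mul, norm_pow, show ‖(1 / 2 : ℂ)‖ = 1 / 2 by norm_num] at h5
      exact h5
    · have h6 := hPb ((1 / 2 : ℂ) * cexp (θ * I)) (by
        rw [norm_mul, norm_exp_ofReal_mul_I]; norm_num)
      have h7 : qP h t ((1 / 2 : ℂ) * cexp (θ * I)) = ∑' m : ℕ, dP h t m * (1 / 2 : ℂ) ^ (m + 2) *
          cexp (((m + 2 : ℕ) : ℤ) * θ * I) := by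
        unfold qP
        refine tsum_congr fun m => ?_
        rw [mul_pow, ← Complex.exp_nat_mul, mul_assoc]
        congr 3
        push_cast
        ring
      rw [h7] at h6
      exact h6
  have ham : ∀ m, a m ≤ 400 * H * (1 / 16) ^ (m + 4) := by
    intro m
    have h5 := hd m
    have h6 : a m = 1 / 4 * (‖dP h t m‖ * (1 / 2) ^ (m + 2)) * ((2 * t) ^ 2) ^ (m + 4) := by
      simp only [ha, dP]
      rw [norm_mul, norm_inv, norm_pow, norm_real, Real.norm_of_nonneg t0.le]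
      have h7 : (1 / 2 : ℝ) ^ (m + 2) = 4 * (1 / 2) ^ (m + 4) := by
        rw [show m + 4 = (m + 2) + 2 from rfl, pow_add _ (m + 2) 2]
        ring
      have h9 : (1 / 2 : ℝ) ^ (m + 4) = (2 ^ (m + 4))⁻¹ := by rw [one_div, inv_pow]
      rw [h7, h9, ← pow_mul, mul_comm 2 (m + 4), pow_mul, mul_pow 2 t, mul_pow (2 ^ (m + 4))]
      field_simp
    rw [h6]
    have h8 : ((2 * t) ^ 2) ^ (m + 4) ≤ (1 / 16) ^ (m + 4) :=
      pow_le_pow_left₀ (by positivity) (by nlinarith) _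
    calc 1 / 4 * (‖dP h t m‖ * (1 / 2) ^ (m + 2)) * ((2 * t) ^ 2) ^ (m + 4)
        ≤ 1 / 4 * (1600 * H) * (1 / 16) ^ (m + 4) := by gcongr
      _ = 400 * H * (1 / 16) ^ (m + 4) := by ring
  have hgeo : HasSum (fun m : ℕ => 400 * H * (1 / 16 : ℝ) ^ (m + 4))
      (400 * H * ((1 / 16) ^ 4 * (1 - 1 / 16)⁻¹)) := by
    refine HasSum.mul_left _ ?_
    have h5 := (hasSum_geometric_of_lt_one (r := (1 / 16 : ℝ)) (by norm_num) (by norm_num)).mul_left
      ((1 / 16 : ℝ) ^ 4)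
    refine h5.congr_fun fun m => ?_
    rw [pow_add]
    ring
  have hH1 : H ≤ 400 * H * ((1 / 16) ^ 4 * (1 - 1 / 16)⁻¹) := by
    rw [← hgeo.tsum_eq]
    exact has.tsum_le_tsum ham hgeo.summable
  have hHz : H = 0 := by
    norm_num at hH1
    linarith
  have hh : ∀ m : ℕ, ‖h ((m + 4 : ℕ) : ℤ)‖ = 0 := by
    intro m
    have h5 := ham m
    rw [hHz] at h5
    have h6 : a m = 0 := le_antisymm (by linarith) (ha0 m)
    simp only [ha] at h6
    exact (mul_eq_zero.1 h6).resolve_right (by positivity)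
  have hg0 : gS h t = fun _ => 0 := by
    funext w
    unfold gS
    refine (tsum_congr fun m => ?_).trans tsum_zero
    have h5 : cN h t m = 0 := by
      rw [cN, mul_eq_zero]
      left
      rw [← norm_eq_zero, hsym, hh]
    rw [h5, zero_mul]
  intro z hz
  rw [hQ z hz, hg0]
  unfold QQ
  exact tsum_zero

end FB
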