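import Pool.Agent.FB.HopfP.Sing

/-! MP_15d50e_gt, module HOPF: a periodic function, odd under rotation, is the periodisation of its
singular part. -/

set_option autoImplicit false

open Complex Set
open scoped ComplexConjugate Real

namespace FB

variable {s : ℝ} {q g qp : ℂ → ℂ}

theorem liou_aux (hs0 : 0 ≤ s) (hs : s < 1 / 8) (hper : ∀ z ∈ US s, ∀ p : ℤ × ℤ, q (z + lp p) = q z)
    (hrot : ∀ z ∈ US s, q (I * z) = -q z) (hg : IsSing s g)
    (hqp : DifferentiableOn ℂ qp (Metric.ball 0 (7 / 8)))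
    (heq : ∀ z : ℂ, s < ‖z‖ → ‖z‖ < 7 / 8 → q z = g z + qp z) :
    (∀ z ∈ US s, q z = QQ g z) ∧ ∀ z : ℂ, ‖z‖ < 7 / 8 → qp z = PQ g z := by
  set D0 : ℂ → ℂ := fun z => qp z - PQ g z with hD0
  set D : ℂ → ℂ := fun z => q z - QQ g z with hD
  have hD0d : DifferentiableOn ℂ D0 (Metric.ball 0 (7 / 8)) :=
    hqp.sub ((hg.PQ_diff hs0).mono (Metric.ball_subset_ball (by linarith)))
  -- `D = D0` on the annulus
  have hDD : ∀ z : ℂ, s < ‖z‖ → ‖z‖ < 7 / 8 → D z = D0 z := by
    intro z h1 h2
    have hz : z ∈ US s := mem_US_of_norm h1 (by linarith)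
    simp only [hD, hD0]
    rw [heq z h1 h2, hg.QQ_eq hs0 hz]
    ring
  have hDper : ∀ z ∈ US s, ∀ p : ℤ × ℤ, D (z - lp p) = D z := by
    intro z hz p
    have h1 : z - lp p ∈ US s := (mem_US_sub p).2 hz
    have h2 := hper (z - lp p) h1 p
    have h3 := QQ_add g (z - lp p) p
    rw [sub_add_cancel] at h2 h3
    simp only [hD]
    rw [h2, h3]
  have hDrot : ∀ z ∈ US s, D (I * z) = -D z := by
    intro z hz
    simp only [hD]
    rw [hrot z hz, hg.QQ_rot hz]
    ring
  -- the entire function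
  set E : ℂ → ℂ := fun z => D0 (z - lp (rd z)) with hE
  have hEp : ∀ (z : ℂ) (p : ℤ × ℤ), ‖z - lp p‖ < 7 / 8 → E z = D0 (z - lp p) := by
    intro z p hp
    by_cases hrd : rd z = p
    · rw [hE, ← hrd]
    · have h1 := norm_sub_rd_lt z
      have h2 : 1 ≤ ‖lp (rd z - p)‖ := one_le_norm_lp (sub_ne_zero.2 hrd)
      have h3 : ‖lp (rd z - p)‖ ≤ ‖z - lp p‖ + ‖z - lp (rd z)‖ := by
        have := norm_sub_le (z - lp p) (z - lp (rd z))
        rwa [sub_sub_sub_cancel_left, ← lp_sub] at this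
      have h4 : s < ‖z - lp p‖ := by linarith
      have h5 : s < ‖z - lp (rd z)‖ := by linarith
      have hz : z ∈ US s := mem_US_of_near h4 (by linarith)
      simp only [hE]
      rw [← hDD _ h4 hp, ← hDD _ h5 h1, hDper z hz, hDper z hz]
  have hEd : Differentiable ℂ E := by
    intro z₀
    have h1 := norm_sub_rd_lt z₀
    have h2 : E =ᶠ[nhds z₀] fun z => D0 (z - lp (rd z₀)) := by
      have hc : Continuous fun z : ℂ => ‖z - lp (rd z₀)‖ := by fun_prop
      filter_upwards [hc.continuousAt.eventually (gt_mem_nhds h1)] with z hz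
      exact hEp z _ hz
    refine DifferentiableAt.congr_of_eventuallyEq ?_ h2
    have h3 : DifferentiableAt ℂ D0 (z₀ - lp (rd z₀)) :=
      hD0d.differentiableAt (Metric.isOpen_ball.mem_nhds (by
        rw [Metric.mem_ball, dist_zero_right]; exact h1))
    have h4 : DifferentiableAt ℂ (fun z : ℂ => z - lp (rd z₀)) z₀ := by fun_prop
    exact DifferentiableAt.comp (g := D0) (f := fun z : ℂ => z - lp (rd z₀)) z₀ h3 h4
  have hEb : Bornology.IsBounded (range E) := by
    have hcpt : IsCompact (Metric.closedBall (0 : ℂ) (Real.sqrt 2 / 2)) :=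
      isCompact_closedBall _ _
    have hcont : ContinuousOn D0 (Metric.closedBall (0 : ℂ) (Real.sqrt 2 / 2)) :=
      hD0d.continuousOn.mono (Metric.closedBall_subset_ball
        (sqrt2_half_le.trans_lt (by norm_num)))
    have h1 := (hcpt.image_of_continuousOn hcont).isBounded
    refine h1.subset ?_
    rintro _ ⟨z, rfl⟩
    refine ⟨z - lp (rd z), ?_, rfl⟩
    rw [Metric.mem_closedBall, dist_zero_right]
    exact norm_sub_rd_le_sqrt z
  have hEc : ∀ z w : ℂ, E z = E w := hEd.apply_eq_apply_of_bounded hEb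
  have hED : ∀ z ∈ US s, E z = D z := by
    intro z hz
    have h1 := norm_sub_rd_lt z
    simp only [hE]
    rw [← hDD _ (hz _) h1, hDper z hz]
  have hhalf : ((1 / 2 : ℝ) : ℂ) ∈ US s := by
    refine mem_US_of_norm ?_ ?_
    · rw [norm_real]; norm_num; linarith
    · rw [norm_real]; norm_num; linarith
  have h0 : E 0 = 0 := by
    have h1 := hED _ hhalf
    have h2 := hED _ (US_I hhalf)
    rw [hDrot _ hhalf, hEc _ 0] at h2
    rw [hEc _ 0] at h1
    rw [← h1] at h2
    have h3 : (2 : ℂ) * E 0 = 0 := by linear_combination h2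
    exact (mul_eq_zero.1 h3).resolve_left two_ne_zero
  constructor
  · intro z hz
    have h1 := hED z hz
    rw [hEc z 0, h0] at h1
    simp only [hD] at h1
    exact (sub_eq_zero.1 h1.symm)
  · intro z hz
    have h1 := hEp z 0 (by simpa using hz)
    rw [hEc z 0, h0, lp_zero, sub_zero] at h1
    simp only [hD0] at h1
    exact (sub_eq_zero.1 h1.symm)

end FB
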