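import Pool.Agent.FB.HopfP.Wt

/-! MP_15d50e_gt, module HOPF: periodisation of a singular part. -/

set_option autoImplicit false

open Complex Set
open scoped ComplexConjugate Real

namespace FB

/-- a holomorphic function outside the disc of radius `s` with quartic decay, odd under rotation -/
structure IsSing (s : ℝ) (g : ℂ → ℂ) : Prop where
  diff : DifferentiableOn ℂ g {w | s < ‖w‖}
  bound : ∀ r, s < r → ∃ B, 0 ≤ B ∧ ∀ w, r ≤ ‖w‖ → ‖g w‖ ≤ B * (‖w‖ ^ 4)⁻¹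
  rot : ∀ w, s < ‖w‖ → g (I * w) = -g w

/-- the periodisation of `g` -/
noncomputable def QQ (g : ℂ → ℂ) (z : ℂ) : ℂ := ∑' p, g (z - lp p)

/-- the periodisation of `g` without the central term -/
noncomputable def PQ (g : ℂ → ℂ) (z : ℂ) : ℂ := ∑' p, if p = 0 then 0 else g (z - lp p)

variable {s : ℝ} {g : ℂ → ℂ}

theorem IsSing.term_bound {r R B : ℝ} (hr0 : 0 < r) (hB0 : 0 ≤ B)
    (hB : ∀ w, r ≤ ‖w‖ → ‖g w‖ ≤ B * (‖w‖ ^ 4)⁻¹) {z : ℂ} (hR : ‖z‖ ≤ R) {p : ℤ × ℤ}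
    (hp : r ≤ ‖z - lp p‖) : ‖g (z - lp p)‖ ≤ B * (1 + (R + 1) / r) ^ 4 * wt p := by
  refine (hB _ hp).trans ?_
  rw [mul_assoc]
  exact mul_le_mul_of_nonneg_left (wt_bound hr0 hR hp) hB0

theorem IsSing.summable (h : IsSing s g) (hs : 0 ≤ s) {z : ℂ} (hz : z ∈ US s) :
    Summable fun p => g (z - lp p) := by
  obtain ⟨r, hr, hzr⟩ := exists_US_gt hz
  obtain ⟨B, hB0, hB⟩ := h.bound r hr
  refine Summable.of_norm_bounded (g := fun p => B * (1 + (‖z‖ + 1) / r) ^ 4 * wt p)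
    (summable_wt.mul_left _) fun p => ?_
  exact IsSing.term_bound (hs.trans_lt hr) hB0 hB le_rfl (hzr p).le

theorem IsSing.QQ_eq (h : IsSing s g) (hs : 0 ≤ s) {z : ℂ} (hz : z ∈ US s) :
    QQ g z = g z + PQ g z := by
  unfold QQ PQ
  rw [(h.summable hs hz).tsum_eq_add_tsum_ite 0, lp_zero, sub_zero]

theorem IsSing.QQ_diff (h : IsSing s g) (hs : 0 ≤ s) : DifferentiableOn ℂ (QQ g) (US s) := by
  intro z₀ hz₀
  obtain ⟨r, hr, hzr⟩ := exists_US_gt hz₀
  obtain ⟨B, hB0, hB⟩ := h.bound r hr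
  have hr0 : 0 < r := hs.trans_lt hr
  have hU : IsOpen (US r ∩ Metric.ball z₀ 1) := (isOpen_US r).inter Metric.isOpen_ball
  have hd : DifferentiableOn ℂ (fun z => ∑' p, g (z - lp p)) (US r ∩ Metric.ball z₀ 1) := by
    refine differentiableOn_tsum_of_summable_norm
      (u := fun p => B * (1 + (‖z₀‖ + 1 + 1) / r) ^ 4 * wt p) (summable_wt.mul_left _)
      (fun p => ?_) hU fun p z hz => ?_
    · refine h.diff.comp (by fun_prop) fun z hz => ?_
      exact hr.trans (hz.1 p)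
    · refine IsSing.term_bound hr0 hB0 hB ?_ (hz.1 p).le
      have h1 := hz.2
      rw [Metric.mem_ball, dist_eq_norm] at h1
      have h2 := norm_le_norm_add_norm_sub' z z₀
      linarith
  exact (hd.differentiableAt (hU.mem_nhds ⟨hzr, Metric.mem_ball_self one_pos⟩)).differentiableWithinAt

theorem IsSing.PQ_term (_h : IsSing s g) {r R B : ℝ} (hr0 : 0 < r) (hB0 : 0 ≤ B)
    (hB : ∀ w, r ≤ ‖w‖ → ‖g w‖ ≤ B * (‖w‖ ^ 4)⁻¹) {z : ℂ} (hR : ‖z‖ ≤ R) (hz : ‖z‖ ≤ 1 - r)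
    (p : ℤ × ℤ) : ‖if p = 0 then 0 else g (z - lp p)‖ ≤ B * (1 + (R + 1) / r) ^ 4 * wt p := by
  by_cases hp : p = 0
  · rw [if_pos hp, norm_zero]
    have := wt_nonneg p
    positivity
  · rw [if_neg hp]
    refine IsSing.term_bound hr0 hB0 hB hR ?_
    have h1 := one_le_norm_lp hp
    have h2 := norm_sub_norm_le (lp p) z
    rw [norm_sub_rev] at h2
    linarith

theorem IsSing.PQ_norm_le (h : IsSing s g) {r B : ℝ} (hr0 : 0 < r) (hB0 : 0 ≤ B)
    (hB : ∀ w, r ≤ ‖w‖ → ‖g w‖ ≤ B * (‖w‖ ^ 4)⁻¹) {z : ℂ} {R : ℝ} (hR : ‖z‖ ≤ R)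
    (hz : ‖z‖ ≤ 1 - r) : ‖PQ g z‖ ≤ B * (1 + (R + 1) / r) ^ 4 * 25 := by
  have hR0 : 0 ≤ R := (norm_nonneg z).trans hR
  have h1 : Summable fun p => B * (1 + (R + 1) / r) ^ 4 * wt p := summable_wt.mul_left _
  refine (tsum_of_norm_bounded h1.hasSum fun p => h.PQ_term hr0 hB0 hB hR hz p).trans ?_
  rw [tsum_mul_left]
  exact mul_le_mul_of_nonneg_left tsum_wt_le (by positivity)

theorem IsSing.PQ_diff (h : IsSing s g) (hs : 0 ≤ s) :
    DifferentiableOn ℂ (PQ g) (Metric.ball 0 (1 - s)) := by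
  intro z₀ hz₀
  rw [Metric.mem_ball, dist_zero_right] at hz₀
  set r := (s + (1 - ‖z₀‖)) / 2 with hr
  have hr1 : s < r := by rw [hr]; linarith
  have hr2 : ‖z₀‖ < 1 - r := by rw [hr]; linarith
  have hr0 : 0 < r := hs.trans_lt hr1
  obtain ⟨B, hB0, hB⟩ := h.bound r hr1
  have hd : DifferentiableOn ℂ (fun z => ∑' p, if p = 0 then 0 else g (z - lp p))
      (Metric.ball 0 (1 - r)) := by
    refine differentiableOn_tsum_of_summable_norm
      (u := fun p => B * (1 + (1 - r + 1) / r) ^ 4 * wt p) (summable_wt.mul_left _)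
      (fun p => ?_) Metric.isOpen_ball fun p z hz => ?_
    · by_cases hp : p = 0
      · simp only [hp, if_true]
        exact differentiableOn_const _
      · simp only [hp, if_false]
        refine h.diff.comp (by fun_prop) fun z hz => ?_
        rw [Metric.mem_ball, dist_zero_right] at hz
        have h1 := one_le_norm_lp hp
        have h2 := norm_sub_norm_le (lp p) z
        rw [norm_sub_rev] at h2
        show s < ‖z - lp p‖
        linarith
    · rw [Metric.mem_ball, dist_zero_right] at hz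
      exact h.PQ_term hr0 hB0 hB hz.le hz.le p
  exact (hd.differentiableAt (Metric.isOpen_ball.mem_nhds (by
    rw [Metric.mem_ball, dist_zero_right]; exact hr2))).differentiableWithinAt

theorem QQ_add (g : ℂ → ℂ) (z : ℂ) (q : ℤ × ℤ) : QQ g (z + lp q) = QQ g z := by
  unfold QQ
  rw [← (Equiv.addRight q).tsum_eq]
  refine tsum_congr fun p => ?_
  rw [Equiv.coe_addRight, lp_add]
  congr 1
  ring

theorem IsSing.QQ_rot (h : IsSing s g) {z : ℂ} (hz : z ∈ US s) :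
    QQ g (I * z) = -QQ g z := by
  unfold QQ
  rw [← rotE.tsum_eq, ← tsum_neg]
  refine tsum_congr fun p => ?_
  rw [lp_rotE, ← mul_sub]
  exact h.rot _ (hz p)

end FB
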