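import Pool.Agent.FB.GeoA.Lat

/-! MP_15d50e_gt, module HOPF: lattice sums with quartic decay. -/

set_option autoImplicit false

open Complex Set
open scoped ComplexConjugate Real

namespace FB

/-- the nearest lattice point (rounding) -/
noncomputable def rd (z : ℂ) : ℤ × ℤ := (round z.re, round z.im)

theorem norm_sub_rd_le (z : ℂ) (p : ℤ × ℤ) : ‖z - lp (rd z)‖ ≤ ‖z - lp p‖ := by
  have h1 : |(z - lp (rd z)).re| ≤ |(z - lp p).re| := by
    rw [sub_re, sub_re, lp_re, lp_re]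
    exact round_le z.re p.1
  have h2 : |(z - lp (rd z)).im| ≤ |(z - lp p).im| := by
    rw [sub_im, sub_im, lp_im, lp_im]
    exact round_le z.im p.2
  have h3 : ‖z - lp (rd z)‖ ^ 2 ≤ ‖z - lp p‖ ^ 2 := by
    rw [Complex.sq_norm, Complex.sq_norm, normSq_apply, normSq_apply, ← pow_two, ← pow_two,
      ← pow_two, ← pow_two]
    exact add_le_add (sq_le_sq.2 h1) (sq_le_sq.2 h2)
  exact le_of_sq_le_sq h3 (norm_nonneg _)

theorem norm_sub_rd_le_sqrt (z : ℂ) : ‖z - lp (rd z)‖ ≤ Real.sqrt 2 / 2 := by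
  obtain ⟨p, hp⟩ := exists_near_norm z
  exact (norm_sub_rd_le z p).trans hp

theorem norm_sub_rd_lt (z : ℂ) : ‖z - lp (rd z)‖ < 7 / 8 :=
  ((norm_sub_rd_le_sqrt z).trans sqrt2_half_le).trans_lt (by norm_num)

/-- a point of `US s` is in some `US s'` with `s' > s` -/
theorem exists_US_gt {s : ℝ} {z : ℂ} (hz : z ∈ US s) : ∃ s', s < s' ∧ z ∈ US s' := by
  have h := hz (rd z)
  exact ⟨(s + ‖z - lp (rd z)‖) / 2, by linarith, fun p => by
    have := norm_sub_rd_le z p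
    linarith⟩

/-! ### The weight -/

/-- a summable weight on the lattice -/
noncomputable def wt (p : ℤ × ℤ) : ℝ := (1 + (p.1 : ℝ) ^ 2)⁻¹ * (1 + (p.2 : ℝ) ^ 2)⁻¹

theorem wt_nonneg (p : ℤ × ℤ) : 0 ≤ wt p := by
  unfold wt
  positivity

theorem hasSum_int_sq : HasSum (fun n : ℤ => (1 : ℝ) / (n : ℝ) ^ 2) (π ^ 2 / 6 + π ^ 2 / 6) := by
  refine HasSum.of_nat_of_neg_add_one ?_ ?_
  · simpa using hasSum_zeta_two
  · have h := (hasSum_nat_add_iff' 1).2 hasSum_zeta_two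
    simp only [Finset.range_one, Finset.sum_singleton, Nat.cast_zero] at h
    norm_num at h
    refine h.congr_fun ?_
    intro n
    push_cast
    rw [one_div]
    congr 1
    ring

theorem inv_le_aux (n : ℤ) : (1 + (n : ℝ) ^ 2)⁻¹ ≤ (1 : ℝ) / (n : ℝ) ^ 2 + if n = 0 then 1 else 0 := by
  by_cases hn : n = 0
  · subst hn
    simp
  · rw [if_neg hn, add_zero, one_div]
    have h : (0 : ℝ) < (n : ℝ) ^ 2 := by positivity
    exact inv_anti₀ h (by linarith)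

theorem hasSum_aux : HasSum (fun n : ℤ => (1 : ℝ) / (n : ℝ) ^ 2 + if n = 0 then 1 else 0)
    (π ^ 2 / 6 + π ^ 2 / 6 + 1) :=
  hasSum_int_sq.add (hasSum_ite_eq 0 1)

theorem summable_inv1 : Summable fun n : ℤ => (1 + (n : ℝ) ^ 2)⁻¹ :=
  Summable.of_nonneg_of_le (fun n => by positivity) inv_le_aux hasSum_aux.summable

theorem tsum_inv1_le : ∑' n : ℤ, (1 + (n : ℝ) ^ 2)⁻¹ ≤ 5 := by
  refine (summable_inv1.tsum_le_tsum inv_le_aux hasSum_aux.summable).trans ?_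
  rw [hasSum_aux.tsum_eq]
  have h := Real.pi_lt_d2
  have h0 := Real.pi_pos
  nlinarith

theorem summable_wt : Summable wt :=
  summable_inv1.mul_of_nonneg summable_inv1 (fun n => by positivity) (fun n => by positivity)

theorem tsum_wt_le : ∑' p, wt p ≤ 25 := by
  have h : ∑' p, wt p = (∑' n : ℤ, (1 + (n : ℝ) ^ 2)⁻¹) * ∑' n : ℤ, (1 + (n : ℝ) ^ 2)⁻¹ :=
    (summable_inv1.tsum_mul_tsum summable_inv1 summable_wt).symm
  rw [h]
  have h0 : 0 ≤ ∑' n : ℤ, (1 + (n : ℝ) ^ 2)⁻¹ := tsum_nonneg fun n => by positivity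
  have h1 := tsum_inv1_le
  nlinarith

theorem norm_lp_sq (p : ℤ × ℤ) : ‖lp p‖ ^ 2 = (p.1 : ℝ) ^ 2 + (p.2 : ℝ) ^ 2 := by
  rw [Complex.sq_norm, normSq_apply, lp_re, lp_im]
  ring

/-- the quartic decay is controlled by the weight -/
theorem wt_bound {z : ℂ} {R s : ℝ} {p : ℤ × ℤ} (hs : 0 < s) (hR : ‖z‖ ≤ R)
    (h : s ≤ ‖z - lp p‖) : (‖z - lp p‖ ^ 4)⁻¹ ≤ (1 + (R + 1) / s) ^ 4 * wt p := by
  set d := ‖z - lp p‖ with hd
  have hR0 : 0 ≤ R := (norm_nonneg z).trans hR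
  have hd0 : 0 < d := hs.trans_le h
  have h1 : ‖lp p‖ ≤ d + R := by
    have := norm_sub_norm_le (lp p) z
    rw [norm_sub_rev] at this
    linarith
  have h2 : R + 1 ≤ d * ((R + 1) / s) := by
    rw [mul_div_assoc', le_div_iff₀ hs, mul_comm d]
    exact mul_le_mul_of_nonneg_left h (by linarith)
  have h3 : 1 + ‖lp p‖ ≤ d * (1 + (R + 1) / s) := by
    rw [mul_add, mul_one]
    linarith
  have h4 : (1 + ‖lp p‖) ^ 4 ≤ (d * (1 + (R + 1) / s)) ^ 4 :=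
    pow_le_pow_left₀ (by positivity) h3 4
  have h5 : (1 + (p.1 : ℝ) ^ 2) * (1 + (p.2 : ℝ) ^ 2) ≤ (1 + ‖lp p‖) ^ 4 := by
    have h6 := norm_lp_sq p
    have h70 := norm_nonneg (lp p)
    have h71 := sq_nonneg (p.1 : ℝ)
    have h72 := sq_nonneg (p.2 : ℝ)
    have h7 : 1 + (p.1 : ℝ) ^ 2 ≤ (1 + ‖lp p‖) ^ 2 := by nlinarith only [h70, h72, h6]
    have h8 : 1 + (p.2 : ℝ) ^ 2 ≤ (1 + ‖lp p‖) ^ 2 := by nlinarith only [h70, h71, h6]
    calc (1 + (p.1 : ℝ) ^ 2) * (1 + (p.2 : ℝ) ^ 2) ≤ (1 + ‖lp p‖) ^ 2 * (1 + ‖lp p‖) ^ 2 :=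
          mul_le_mul h7 h8 (by positivity) (by positivity)
      _ = (1 + ‖lp p‖) ^ 4 := by ring
  have h9 : (1 + (p.1 : ℝ) ^ 2) * (1 + (p.2 : ℝ) ^ 2) ≤ d ^ 4 * (1 + (R + 1) / s) ^ 4 := by
    rw [← mul_pow]
    exact h5.trans h4
  have h10 : wt p = ((1 + (p.1 : ℝ) ^ 2) * (1 + (p.2 : ℝ) ^ 2))⁻¹ := by
    rw [wt, mul_inv]
  rw [h10, ← div_eq_mul_inv, le_div_iff₀ (by positivity), inv_mul_le_iff₀ (by positivity)]
  exact h9

/-! ### Rotation of the lattice -/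

/-- rotation of the lattice -/
def rotE : ℤ × ℤ ≃ ℤ × ℤ where
  toFun p := (-p.2, p.1)
  invFun p := (p.2, -p.1)
  left_inv p := by simp
  right_inv p := by simp

theorem lp_rotE (p : ℤ × ℤ) : lp (rotE p) = I * lp p := (I_mul_lp p).symm

end FB
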